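import Pool.Agent.MTL.Stmts

/-! The Frattini property of closed subgroups of `GL_d(ℚ_ℓ)`: a subgroup which is large enough near one
is everything. -/

set_option autoImplicit false
set_option linter.unusedSectionVars false

namespace Pool.Agent.MTL.H33

open Matrix Filter Topology

variable {d : Type} [Fintype d] [DecidableEq d] {p : ℕ} [Fact p.Prime]

/-- integral matrices as matrices over the field -/
noncomputable def ph : Matrix d d ℤ_[p] →+* Matrix d d ℚ_[p] := (PadicInt.Coe.ringHom).mapMatrix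

/-- reduction modulo `p` -/
noncomputable def th : Matrix d d ℤ_[p] →+* Matrix d d (ZMod p) := (PadicInt.toZMod).mapMatrix

theorem ph_apply (X : Matrix d d ℤ_[p]) (a b : d) : ph X a b = (X a b : ℚ_[p]) := rfl

theorem th_apply (X : Matrix d d ℤ_[p]) (a b : d) : th X a b = PadicInt.toZMod (X a b) := rfl

theorem th_p_mul (X : Matrix d d ℤ_[p]) : th ((p : Matrix d d ℤ_[p]) * X) = 0 := by
  rw [map_mul, map_natCast]
  have : ((p : ℕ) : Matrix d d (ZMod p)) = 0 := by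
    ext a b
    have h : ((p : ℕ) : Matrix d d (ZMod p)) = ((p : ℕ) : ZMod p) • (1 : Matrix d d (ZMod p)) := by
      rw [← Matrix.diagonal_natCast]
      ext a b
      by_cases h : a = b
      · subst h; simp
      · simp [h]
    rw [h]
    simp
  rw [this, zero_mul]

theorem dvd_of_toZMod {x : ℤ_[p]} (h : PadicInt.toZMod x = 0) : ∃ y, x = p * y := by
  have h1 : x ∈ RingHom.ker (PadicInt.toZMod (p := p)) := h
  rw [PadicInt.ker_toZMod, PadicInt.maximalIdeal_eq_span_p, Ideal.mem_span_singleton] at h1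
  exact h1

theorem of_th_eq {X Y : Matrix d d ℤ_[p]} (h : th X = th Y) :
    ∃ Z : Matrix d d ℤ_[p], X = Y + (p : Matrix d d ℤ_[p]) * Z := by
  have h1 : ∀ a b, ∃ z : ℤ_[p], X a b - Y a b = p * z := by
    intro a b
    apply dvd_of_toZMod
    have := congrFun (congrFun h a) b
    rw [th_apply, th_apply] at this
    rw [map_sub, this, sub_self]
  choose Z hZ using h1
  refine ⟨Matrix.of Z, ?_⟩
  ext a b
  have e : ((p : Matrix d d ℤ_[p]) * Matrix.of Z) = (p : ℕ) • Matrix.of Z := by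
    rw [nsmul_eq_mul]
  rw [e, Matrix.add_apply, Matrix.smul_apply, Matrix.of_apply, nsmul_eq_mul, ← hZ]
  ring

/-- integral matrices close to one are invertible -/
theorem exists_inv (X : Matrix d d ℤ_[p]) : ∃ W : Matrix d d ℤ_[p],
    W * (1 + (p : Matrix d d ℤ_[p]) * X) = 1 := by
  set M : Matrix d d ℤ_[p] := 1 + (p : Matrix d d ℤ_[p]) * X with hM
  have h1 : IsUnit M.det := by
    by_contra hcon
    have h2 : M.det ∈ IsLocalRing.maximalIdeal ℤ_[p] := hcon
    rw [← PadicInt.ker_toZMod] at h2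
    have h3 : PadicInt.toZMod M.det = 0 := h2
    have h4 : PadicInt.toZMod M.det = (th M).det := by
      rw [RingHom.map_det]
      rfl
    rw [h4, hM, map_add, map_one, th_p_mul, add_zero, Matrix.det_one] at h3
    exact one_ne_zero h3
  exact ⟨M⁻¹, Matrix.nonsing_inv_mul M h1⟩

/-- `M = 1 + p ^ k X` with an integral matrix `X` -/
def Near (k : ℕ) (M : Matrix d d ℚ_[p]) : Prop :=
  ∃ X : Matrix d d ℤ_[p], M = ph (1 + (p : Matrix d d ℤ_[p]) ^ k * X)

theorem pcomm (k : ℕ) (X : Matrix d d ℤ_[p]) :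
    X * (p : Matrix d d ℤ_[p]) ^ k = (p : Matrix d d ℤ_[p]) ^ k * X :=
  (((Nat.cast_commute p X).pow_left k).eq).symm

/-- the inverse of a matrix which is close to one is close to one -/
theorem near_inv {k : ℕ} (hk : 1 ≤ k) {g : GL d ℚ_[p]}
    (h : Near k (g : Matrix d d ℚ_[p])) :
    Near k ((g⁻¹ : GL d ℚ_[p]) : Matrix d d ℚ_[p]) := by
  obtain ⟨X, hX⟩ := h
  obtain ⟨j, rfl⟩ : ∃ j, k = j + 1 := ⟨k - 1, by omega⟩
  obtain ⟨W, hW⟩ := exists_inv ((p : Matrix d d ℤ_[p]) ^ j * X)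
  have hW' : W * (1 + (p : Matrix d d ℤ_[p]) ^ (j + 1) * X) = 1 := by
    rw [pow_succ', mul_assoc]; exact hW
  refine ⟨-(W * X), ?_⟩
  have e1 : (1 : Matrix d d ℤ_[p]) + (p : Matrix d d ℤ_[p]) ^ (j + 1) * (-(W * X)) = W := by
    have e2 : W + (p : Matrix d d ℤ_[p]) ^ (j + 1) * (W * X) = 1 := by
      rw [← hW', mul_add, mul_one, ← mul_assoc, ← mul_assoc, pcomm]
    rw [mul_neg, ← e2]
    abel
  rw [e1]
  have e3 : ph W * (g : Matrix d d ℚ_[p]) = 1 := by
    rw [hX, ← map_mul, hW', map_one]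
  calc ((g⁻¹ : GL d ℚ_[p]) : Matrix d d ℚ_[p]) =
      (ph W * (g : Matrix d d ℚ_[p])) * ((g⁻¹ : GL d ℚ_[p]) : Matrix d d ℚ_[p]) := by
        rw [e3, one_mul]
    _ = ph W * ((g : Matrix d d ℚ_[p]) * ((g⁻¹ : GL d ℚ_[p]) : Matrix d d ℚ_[p])) := by
        rw [mul_assoc]
    _ = ph W := by rw [Units.mul_inv, mul_one]

/-- the graded pieces of a subgroup -/
def gr (G : Subgroup (GL d ℚ_[p])) (k : ℕ) : Set (Matrix d d (ZMod p)) :=
  {Y | ∃ X : Matrix d d ℤ_[p], th X = Y ∧ ∃ g ∈ G,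
    (g : Matrix d d ℚ_[p]) = ph (1 + (p : Matrix d d ℤ_[p]) ^ k * X)}

theorem one_add_pow_eq {R : Type*} [Ring R] (x : R) (n : ℕ) :
    ∃ y, Commute x y ∧ (1 + x) ^ n = 1 + (n : R) * x + x ^ 2 * y := by
  induction n with
  | zero => exact ⟨0, Commute.zero_right x, by simp⟩
  | succ n ih =>
    obtain ⟨y, hc, hy⟩ := ih
    refine ⟨y + (n : R) + y * x, ?_, ?_⟩
    · exact (hc.add_right (Nat.commute_cast x n)).add_right (hc.mul_right (Commute.refl x))
    · rw [pow_succ, hy]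
      have h1 : (n : R) * x * x = x ^ 2 * (n : R) := by
        rw [mul_assoc, ← pow_two]
        exact (Nat.cast_commute n (x ^ 2)).eq
      push_cast
      rw [mul_add, mul_one, add_mul, add_mul, one_mul, h1]
      noncomm_ring

theorem gr_succ (G : Subgroup (GL d ℚ_[p])) {k : ℕ} (hk : 2 ≤ k) : gr G k ⊆ gr G (k + 1) := by
  rintro Y ⟨X, hXY, g, hg, hgX⟩
  obtain ⟨j, rfl⟩ : ∃ j, k = j + 2 := ⟨k - 2, by omega⟩
  set P : Matrix d d ℤ_[p] := (p : Matrix d d ℤ_[p]) with hP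
  obtain ⟨y, _, hy⟩ := one_add_pow_eq (P ^ (j + 2) * X) p
  refine ⟨X + P * (P ^ j * (X * X * y)), ?_, g ^ p, pow_mem hg p, ?_⟩
  · rw [map_add, th_p_mul, add_zero, hXY]
  · rw [Units.val_pow_eq_pow_val, hgX, ← map_pow, hy]
    congr 1
    have h1 : ((p : ℕ) : Matrix d d ℤ_[p]) * (P ^ (j + 2) * X) = P ^ (j + 2 + 1) * X := by
      rw [← hP, ← mul_assoc, ← pow_succ']
    have h2 : (P ^ (j + 2) * X) ^ 2 * y = P ^ (j + 2 + 1) * (P * (P ^ j * (X * X * y))) := by
      have h3 : (P ^ (j + 2) * X) ^ 2 = P ^ (j + 2) * P ^ (j + 2) * (X * X) := by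
        rw [pow_two, mul_assoc, ← mul_assoc X, hP, pcomm, ← hP]
        noncomm_ring
      rw [h3]
      have h4 : P ^ (j + 2) * P ^ (j + 2) = P ^ (j + 2 + 1) * (P * P ^ j) := by
        rw [← pow_succ', ← pow_add, ← pow_add]
        congr 1
        ring
      rw [h4]
      noncomm_ring
    rw [h1, h2, mul_add, add_assoc]

theorem gr_mono (G : Subgroup (GL d ℚ_[p])) {i j : ℕ} (hi : 2 ≤ i) (hij : i ≤ j) :
    gr G i ⊆ gr G j := by
  induction j, hij using Nat.le_induction with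
  | base => exact le_rfl
  | succ j hj ih => exact ih.trans (gr_succ G (by omega))

theorem gr_stable (G : Subgroup (GL d ℚ_[p])) : ∃ J, 2 ≤ J ∧ ∀ j, J ≤ j → gr G j = gr G J := by
  let a : ℕ →o Set (Matrix d d (ZMod p)) :=
    ⟨fun k => gr G (k + 2), fun i j hij => gr_mono G (by omega) (by omega)⟩
  obtain ⟨n, hn⟩ := WellFoundedGT.monotone_chain_condition a
  refine ⟨n + 2, by omega, fun j hj => ?_⟩
  have := hn (j - 2) (by omega)
  have h2 : j - 2 + 2 = j := by omega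
  change gr G (n + 2) = gr G (j - 2 + 2) at this
  rw [h2] at this
  exact this.symm

theorem near_of_norm {k : ℕ} {M : Matrix d d ℚ_[p]}
    (h : ∀ a b, ‖M a b - (1 : Matrix d d ℚ_[p]) a b‖ ≤ (p : ℝ) ^ (-(k : ℤ))) : Near k M := by
  have hp : (p : ℚ_[p]) ≠ 0 := by
    exact_mod_cast (Fact.out : p.Prime).ne_zero
  have h1 : ∀ a b, ‖(M a b - (1 : Matrix d d ℚ_[p]) a b) / (p : ℚ_[p]) ^ k‖ ≤ 1 := by
    intro a b
    rw [norm_div, norm_pow, Padic.norm_p]
    have hp' : (0 : ℝ) < p := by exact_mod_cast (Fact.out : p.Prime).pos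
    rw [div_le_one (by positivity)]
    refine (h a b).trans (le_of_eq ?_)
    rw [_root_.zpow_neg, zpow_natCast, inv_pow]
  let Z : Matrix d d ℤ_[p] := fun a b => ⟨_, h1 a b⟩
  have hZ : ∀ a b, ((Z a b : ℤ_[p]) : ℚ_[p]) =
      (M a b - (1 : Matrix d d ℚ_[p]) a b) / (p : ℚ_[p]) ^ k := fun a b => rfl
  refine ⟨Z, ?_⟩
  ext a b
  have e : ((p : Matrix d d ℤ_[p]) ^ k * Z) = (p ^ k : ℕ) • Z := by
    rw [nsmul_eq_mul, Nat.cast_pow]
  rw [e, map_add, map_one, Matrix.add_apply, ph_apply, Matrix.smul_apply, nsmul_eq_mul]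
  push_cast
  rw [hZ, mul_div_cancel₀ _ (pow_ne_zero _ hp)]
  ring

theorem norm_of_near {k : ℕ} {M : Matrix d d ℚ_[p]} (h : Near k M) (a b : d) :
    ‖M a b - (1 : Matrix d d ℚ_[p]) a b‖ ≤ ((p : ℝ)⁻¹) ^ k := by
  obtain ⟨X, rfl⟩ := h
  have e : ((p : Matrix d d ℤ_[p]) ^ k * X) = (p ^ k : ℕ) • X := by
    rw [nsmul_eq_mul, Nat.cast_pow]
  rw [e, map_add, map_one, Matrix.add_apply, ph_apply, Matrix.smul_apply, nsmul_eq_mul,
    add_sub_cancel_left]
  push_cast
  rw [norm_mul, norm_pow, Padic.norm_p]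
  have h1 : ‖((X a b : ℤ_[p]) : ℚ_[p])‖ ≤ 1 := (X a b).2
  have h2 : (0:ℝ) ≤ ((p : ℝ)⁻¹) ^ k := by positivity
  calc _ ≤ ((p : ℝ)⁻¹) ^ k * 1 := mul_le_mul_of_nonneg_left h1 h2
    _ = _ := mul_one _

theorem tendsto_of_near {M : ℕ → Matrix d d ℚ_[p]} (h : ∀ k, Near k (M k)) :
    Tendsto M atTop (𝓝 1) := by
  refine tendsto_pi_nhds.2 fun a => tendsto_pi_nhds.2 fun b => ?_
  rw [tendsto_iff_norm_sub_tendsto_zero]
  have hp : (p : ℝ)⁻¹ < 1 := by
    apply inv_lt_one_of_one_lt₀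
    exact_mod_cast (Fact.out : p.Prime).one_lt
  exact squeeze_zero (fun k => norm_nonneg _) (fun k => norm_of_near (h k) a b)
    (tendsto_pow_atTop_nhds_zero_of_lt_one (by positivity) hp)

/-- FRA. -/
theorem fra : FraStmt := by
  intro d _ _ p _ G _
  obtain ⟨J, hJ2, hJ⟩ := gr_stable G
  refine ⟨{g | ∀ a b, ‖(g : Matrix d d ℚ_[p]) a b - (1 : Matrix d d ℚ_[p]) a b‖ <
    (p : ℝ) ^ (-(J : ℤ))}, ?_, ?_, ?_⟩
  · have : {g : GL d ℚ_[p] | ∀ a b, ‖(g : Matrix d d ℚ_[p]) a b - (1 : Matrix d d ℚ_[p]) a b‖ <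
        (p : ℝ) ^ (-(J : ℤ))} = ⋂ a, ⋂ b, {g : GL d ℚ_[p] |
          ‖(g : Matrix d d ℚ_[p]) a b - (1 : Matrix d d ℚ_[p]) a b‖ < (p : ℝ) ^ (-(J : ℤ))} := by
      ext g
      simp only [Set.mem_iInter, Set.mem_ofPred_eq]
    rw [this]
    refine isOpen_iInter_of_finite fun a => isOpen_iInter_of_finite fun b => ?_
    have hc : Continuous fun g : GL d ℚ_[p] => (g : Matrix d d ℚ_[p]) a b :=
      Units.continuous_val.matrix_elem a b
    exact isOpen_lt (by fun_prop) continuous_const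
  · intro a b
    have hp : (0 : ℝ) < p := by exact_mod_cast (Fact.out : p.Prime).pos
    simp only [Units.val_one, sub_self, norm_zero]
    positivity
  · intro H hH hHG hGH
    have hU : ∀ g ∈ G, ∃ h ∈ H, Near (J + 1) ((h⁻¹ * g : GL d ℚ_[p]) : Matrix d d ℚ_[p]) := by
      intro g hg
      obtain ⟨h, hh, hu⟩ := hGH g hg
      refine ⟨h, hh, near_of_norm fun a b => ?_⟩
      have h1 := hu a b
      rw [Padic.norm_le_pow_iff_norm_lt_pow_add_one]
      have e : -((J + 1 : ℕ) : ℤ) + 1 = -(J : ℤ) := by push_cast; ring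
      rw [e]
      exact h1
    set P : Matrix d d ℤ_[p] := (p : Matrix d d ℤ_[p]) with hP
    have hA : gr G J ⊆ gr H J := by
      rintro Y ⟨X, hXY, g, hg, hgX⟩
      obtain ⟨h, hh, hu⟩ := hU g hg
      obtain ⟨Z, hZ⟩ := near_inv (by omega) hu
      have e1 : h = g * (h⁻¹ * g)⁻¹ := by group
      refine ⟨X + P * (Z + P ^ J * (X * Z)), ?_, h, hh, ?_⟩
      · rw [map_add, th_p_mul, add_zero, hXY]
      · have e2 : (h : Matrix d d ℚ_[p]) =
            (g : Matrix d d ℚ_[p]) * (((h⁻¹ * g)⁻¹ : GL d ℚ_[p]) : Matrix d d ℚ_[p]) := by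
          rw [← Units.val_mul, ← e1]
        rw [e2, hZ, hgX, ← map_mul]
        congr 1
        have e3 : P ^ J * X * (P ^ (J + 1) * Z) = P ^ J * (P * (P ^ J * (X * Z))) := by
          rw [mul_assoc, ← mul_assoc X, hP, pcomm, ← hP, pow_succ']
          noncomm_ring
        have e4 : P ^ (J + 1) * Z = P ^ J * (P * Z) := by
          rw [pow_succ, mul_assoc]
        rw [← hP]
        calc (1 + P ^ J * X) * (1 + P ^ (J + 1) * Z) =
            1 + P ^ J * X + P ^ (J + 1) * Z + P ^ J * X * (P ^ (J + 1) * Z) := by noncomm_ring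
          _ = _ := by
            rw [e3, e4]
            noncomm_ring
    have hB : ∀ j, J ≤ j → gr G j ⊆ gr H j := by
      intro j hj
      rw [hJ j hj]
      exact hA.trans (gr_mono H hJ2 hj)
    have hC : ∀ g ∈ G, ∀ k, ∃ h ∈ H,
        Near (J + 1 + k) ((h⁻¹ * g : GL d ℚ_[p]) : Matrix d d ℚ_[p]) := by
      intro g hg k
      induction k with
      | zero => exact hU g hg
      | succ k ih =>
        obtain ⟨h, hh, X, hX⟩ := ih
        have hu : h⁻¹ * g ∈ G := G.mul_mem (G.inv_mem (hHG hh)) hg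
        have h1 : th X ∈ gr G (J + 1 + k) := ⟨X, rfl, _, hu, hX⟩
        obtain ⟨X', hXX', h', hh', hX'⟩ := hB (J + 1 + k) (by omega) h1
        obtain ⟨Z, hZ⟩ := of_th_eq hXX'.symm
        obtain ⟨W, hW⟩ := exists_inv (P ^ (J + k) * X')
        have hW' : W * (1 + P ^ (J + 1 + k) * X') = 1 := by
          have e : P ^ (J + 1 + k) = P * P ^ (J + k) := by
            rw [← pow_succ']; congr 1; ring
          rw [e, mul_assoc]; exact hW
        have e3 : ph W * (h' : Matrix d d ℚ_[p]) = 1 := by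
          rw [hX', ← map_mul, hW', map_one]
        have e4 : ((h'⁻¹ : GL d ℚ_[p]) : Matrix d d ℚ_[p]) = ph W := by
          calc ((h'⁻¹ : GL d ℚ_[p]) : Matrix d d ℚ_[p]) =
              (ph W * (h' : Matrix d d ℚ_[p])) * ((h'⁻¹ : GL d ℚ_[p]) : Matrix d d ℚ_[p]) := by
                rw [e3, one_mul]
            _ = ph W * ((h' : Matrix d d ℚ_[p]) * ((h'⁻¹ : GL d ℚ_[p]) : Matrix d d ℚ_[p])) := by
                rw [mul_assoc]
            _ = ph W := by rw [Units.mul_inv, mul_one]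
        refine ⟨h * h', H.mul_mem hh hh', W * Z, ?_⟩
        have e5 : (h * h')⁻¹ * g = h'⁻¹ * (h⁻¹ * g) := by group
        rw [e5, Units.val_mul, hX, e4, ← map_mul]
        congr 1
        have e6 : (1 : Matrix d d ℤ_[p]) + P ^ (J + 1 + k) * X =
            (1 + P ^ (J + 1 + k) * X') + P ^ (J + 1 + (k + 1)) * Z := by
          have e7 : P ^ (J + 1 + (k + 1)) = P ^ (J + 1 + k) * P := by
            rw [← pow_succ]; rfl
          rw [hZ, e7, ← hP]
          noncomm_ring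
        rw [e6, mul_add, hW', ← mul_assoc, hP, pcomm, mul_assoc]
    apply le_antisymm hHG
    intro g hg
    choose h hh hu using hC g hg
    have hn1 : ∀ k, Near k (((h k)⁻¹ * g : GL d ℚ_[p]) : Matrix d d ℚ_[p]) := by
      intro k
      obtain ⟨X, hX⟩ := hu k
      refine ⟨P ^ (J + 1) * X, ?_⟩
      rw [hX, ← hP, ← mul_assoc, ← pow_add, add_comm k (J + 1)]
    have hn2 : ∀ k, Near k ((((h k)⁻¹ * g)⁻¹ : GL d ℚ_[p]) : Matrix d d ℚ_[p]) := by
      intro k
      obtain ⟨X, hX⟩ := near_inv (by omega) (hu k)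
      refine ⟨P ^ (J + 1) * X, ?_⟩
      rw [hX, ← hP, ← mul_assoc, ← pow_add, add_comm k (J + 1)]
    have ht : Tendsto (fun k => ((h k)⁻¹ * g)⁻¹) atTop (𝓝 (1 : GL d ℚ_[p])) := by
      rw [Units.isInducing_embedProduct.tendsto_nhds_iff]
      have e1 : Units.embedProduct (Matrix d d ℚ_[p]) 1 = (1, MulOpposite.op 1) := rfl
      rw [e1, Prod.tendsto_iff]
      refine ⟨tendsto_of_near hn2, ?_⟩
      have h2 := (MulOpposite.continuous_op.tendsto (1 : Matrix d d ℚ_[p])).comp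
        (tendsto_of_near hn1)
      refine h2.congr fun k => ?_
      simp only [Function.comp_apply, Units.embedProduct_apply, inv_inv]
    have ht2 : Tendsto h atTop (𝓝 g) := by
      have h3 := (tendsto_const_nhds (x := g)).mul ht
      rw [mul_one] at h3
      refine h3.congr fun k => ?_
      group
    exact hH.mem_of_tendsto ht2 (Eventually.of_forall hh)

end Pool.Agent.MTL.H33
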